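import Pool.Agent.W938.QX.Dev
import Pool.Agent.W938.QM.Fam

/-!
# The families of certificates of one verifier
-/

set_option autoImplicit false
set_option linter.unusedSectionVars false

namespace Pool.Agent.W938.QX

open Finset Pool.Agent.NPC Pool.Agent.H620R2.Gauge Pool.Agent.W938.Hyb
open Pool.Agent.H628R3.RO (randomOracle)
open Pool.Agent.W938.QM (circ Sq mem_Sq card_Sq Agree)

/-- The polynomial versions of the parameters. -/
lemma bd_eval (r k : ℕ) (t q h : Polynomial ℕ) (n : ℕ) :
    (bd r k t q h).eval n = bd r k (t.eval n) (q.eval n) (h.eval n) := by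
  have e : (Gr r k t q h).eval n = Gr r k (t.eval n) (q.eval n) (h.eval n) := by
    unfold Gr
    simp only [Polynomial.eval_mul, Polynomial.eval_add, Polynomial.eval_pow,
      Polynomial.eval_natCast, Polynomial.eval_one, Polynomial.eval_ofNat]
  unfold bd
  rw [Polynomial.eval_add, Polynomial.eval_mul, Polynomial.eval_pow, e]
  simp

theorem fam (W : ∀ b : ℕ, Set ((Fin b → Bool) → ℂ)) (α β : ℝ) (k : ℕ) (hk : 0 < k)
    (hαβ : 1 / (k : ℝ) ≤ α - β) (M : Alg) (C : List Bool → List Gate)
    (p : Polynomial ℕ) (r : ℕ) (hC : PolyTime (fun z => bits (C z)))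
    (hr : ∀ z, numE (C z) ≤ r) :
    ∃ P : Polynomial ℕ,
      (∀ (x : List Bool) (O O' : Oracle), (∀ z : List Bool, z.length ≤ P.eval x.length → O z = O' z) →
        ∀ w : List Bool, w.length ≤ p.eval x.length →
        (YesE W α M C (p.eval x.length) (p.eval x.length) (pairBits w x) O →
          YesE W α M C (p.eval x.length) (p.eval x.length) (pairBits w x) O') ∧
        (NoE W β M C (p.eval x.length) (p.eval x.length) (pairBits w x) O →
          NoE W β M C (p.eval x.length) (p.eval x.length) (pairBits w x) O')) ∧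
      ∀ (B : Oracle) (x : List Bool), ∃ (T : Set (Finset (List Bool × Bool))) (Bad : Set Oracle),
      (∀ c ∈ T, c.card ≤ P.eval x.length ∧
        ∀ e ∈ c, e.1.length ≤ P.eval x.length ∧ e.1.length % 2 = 0) ∧
      MeasurableSet Bad ∧ randomOracle.real Bad ≤ (1 / 2) ^ (2 * x.length + 2) ∧
      ∀ A : Oracle, A ∉ Bad →
        ((∃ w : List Bool, w.length ≤ p.eval x.length ∧
          YesE W α M C (p.eval x.length) (p.eval x.length) (pairBits w x) (mix A B)) →
            ∃ c ∈ T, Agree A c) ∧
        ((∀ w : List Bool, w.length ≤ p.eval x.length →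
          NoE W β M C (p.eval x.length) (p.eval x.length) (pairBits w x) (mix A B)) →
            ¬ ∃ c ∈ T, Agree A c) := by
  classical
  obtain ⟨qb, hqb⟩ := M.out_local
  obtain ⟨ob, hob⟩ := M.out_length
  obtain ⟨cb, hcb⟩ := QM.gates_bound hC
  set ln : Polynomial ℕ := 2 * p + 1 + Polynomial.X with hln
  have hlen : ∀ w x : List Bool, w.length ≤ p.eval x.length →
      (pairBits w x).length ≤ ln.eval x.length := by
    intro w x hw
    rw [length_pairBits]
    simp only [hln, Polynomial.eval_add, Polynomial.eval_mul, Polynomial.eval_one,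
      Polynomial.eval_X, Polynomial.eval_ofNat]
    omega
  set t : Polynomial ℕ := M.p.comp ln with ht
  set q : Polynomial ℕ := qb.comp ln + cb.comp (ob.comp ln) with hq
  set h : Polynomial ℕ := p + 2 * Polynomial.X + 3 with hh
  have hS : ∀ w x : List Bool, w.length ≤ p.eval x.length → ∀ O : Oracle,
      ∃ S : Finset (List Bool), S.card ≤ t.eval x.length ∧ (∀ z ∈ S, z.length ≤ q.eval x.length) ∧
      ∀ O' : Oracle, (∀ z ∈ S, O' z = O z) → M.out O' (pairBits w x) = M.out O (pairBits w x) := by
    intro w x hw O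
    have hl := hlen w x hw
    obtain ⟨S, h1, h2, h3⟩ := hqb O (pairBits w x)
    refine ⟨S, h1.trans ?_, fun z hz => (h2 z hz).trans ?_, h3⟩
    · rw [ht, Polynomial.eval_comp]
      exact eval_mono _ hl
    · rw [hq, QM.ev]
      exact (eval_mono _ hl).trans (Nat.le_add_right _ _)
  have hg : ∀ w x : List Bool, w.length ≤ p.eval x.length → ∀ (O : Oracle) z,
      M.out O (pairBits w x) = some z → ∀ q' k, Sum.inr (true, q', k) ∈ C z →
      q'.length ≤ q.eval x.length := by
    intro w x hw O z hz q' k hk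
    have hl := hlen w x hw
    have h1 := hcb z q' k hk
    have h2 := hob O _ z hz
    refine h1.trans ((eval_mono cb (h2.trans (eval_mono ob hl))).trans ?_)
    rw [hq, QM.ev]
    exact Nat.le_add_left _ _
  refine ⟨bd r k t q h + q, ?_, fun B x => ?_⟩
  · intro x O O' hO w hw
    have hO' : ∀ z : List Bool, z.length ≤ q.eval x.length → O z = O' z := by
      intro z hz
      refine hO z (hz.trans ?_)
      have e : (bd r k t q h + q).eval x.length =
        (bd r k t q h).eval x.length + q.eval x.length := Polynomial.eval_add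
      rw [e]
      exact Nat.le_add_left _ _
    have h1 : circ M C O' (pairBits w x) = circ M C O (pairBits w x) := by
      obtain ⟨S, -, h2, h3⟩ := hS w x hw O
      unfold circ
      rw [h3 O' fun z hz => (hO' z (h2 z hz)).symm]
    have h2 : ∀ ψ : (Fin (p.eval x.length) → Bool) → ℂ,
        accW O' (circ M C O' (pairBits w x)) (p.eval x.length) ψ =
          accW O (circ M C O (pairBits w x)) (p.eval x.length) ψ := by
      intro ψ
      rw [h1]
      refine accW_local _ (fun q' k hk z hz => ?_) ψ
      refine (hO' z ?_).symm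
      rw [hz]
      unfold circ at hk
      cases ho : M.out O (pairBits w x) with
      | none => rw [ho] at hk; simp at hk
      | some y => rw [ho] at hk; exact hg w x hw O y ho q' k hk
    refine ⟨?_, ?_⟩
    · rintro ⟨ψ, h3, h4, h5⟩
      exact ⟨ψ, h3, h4, by rw [h2]; exact h5⟩
    · intro h3 ψ h4 h5
      rw [h2]
      exact h3 ψ h4 h5
  set n := x.length with hn
  have hd : ∀ w : List Bool, ∃ Ce : Finset (List Bool) → Oracle → Prop, w.length ≤ p.eval n →
      ((∀ (H : Finset (List Bool)) (A A' : Oracle), (∀ z ∈ H, A z = A' z) → Ce H A → Ce H A') ∧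
      (∀ H A, Ce H A → H ⊆ Ev (q.eval n) ∧ H.card ≤ bd r k (t.eval n) (q.eval n) (h.eval n)) ∧
      MeasurableSet {A : Oracle | (YesE W α M C (p.eval n) (p.eval n) (pairBits w x) (mix A B) ∧
        ∀ H, ¬ Ce H A) ∨ (NoE W β M C (p.eval n) (p.eval n) (pairBits w x) (mix A B) ∧
          ∃ H, Ce H A)} ∧
      randomOracle.real {A : Oracle | (YesE W α M C (p.eval n) (p.eval n) (pairBits w x) (mix A B) ∧
        ∀ H, ¬ Ce H A) ∨ (NoE W β M C (p.eval n) (p.eval n) (pairBits w x) (mix A B) ∧
          ∃ H, Ce H A)} ≤ (1 / 2) ^ (h.eval n)) := by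
    intro w
    by_cases hw : w.length ≤ p.eval n
    · obtain ⟨Ce, hCe⟩ := dev W α β k hk hαβ B M C (p.eval n) (p.eval n) (pairBits w x) r (t.eval n) (q.eval n)
        (h.eval n) (hS w x hw) (hg w x hw) hr
      exact ⟨Ce, fun _ => hCe⟩
    · exact ⟨fun _ _ => False, fun hw' => absurd hw' hw⟩
  choose Ce hCe using hd
  set D : List Bool → Set Oracle := fun w =>
    {A : Oracle | (YesE W α M C (p.eval n) (p.eval n) (pairBits w x) (mix A B) ∧
        ∀ H, ¬ Ce w H A) ∨ (NoE W β M C (p.eval n) (p.eval n) (pairBits w x) (mix A B) ∧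
          ∃ H, Ce w H A)} with hD
  refine ⟨{c | ∃ w : List Bool, w.length ≤ p.eval n ∧ ∃ (H : Finset (List Bool)) (A : Oracle),
    Ce w H A ∧ c = H.image fun z => (z, A z)}, ⋃ w ∈ Sq (p.eval n), D w, ?_, ?_, ?_, ?_⟩
  · rintro c ⟨w, hw, H, A, hc, rfl⟩
    obtain ⟨h1, h2⟩ := (hCe w hw).2.1 H A hc
    rw [Polynomial.eval_add, bd_eval]
    refine ⟨?_, ?_⟩
    · exact (Finset.card_image_le.trans h2).trans (Nat.le_add_right _ _)
    · intro e he
      obtain ⟨z, hz, rfl⟩ := Finset.mem_image.1 he
      have h3 := mem_Ev.1 (h1 hz)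
      exact ⟨h3.1.trans (Nat.le_add_left _ _), h3.2⟩
  · refine Finset.measurableSet_biUnion _ fun w hw => ?_
    exact (hCe w (mem_Sq.1 hw)).2.2.1
  · refine (MeasureTheory.measureReal_biUnion_finset_le _ _).trans ?_
    have h1 : ∑ w ∈ Sq (p.eval n), randomOracle.real (D w) ≤
        ∑ _w ∈ Sq (p.eval n), ((1 : ℝ) / 2) ^ (h.eval n) :=
      Finset.sum_le_sum fun w hw => (hCe w (mem_Sq.1 hw)).2.2.2
    refine h1.trans ?_
    rw [Finset.sum_const, nsmul_eq_mul]
    have h2 : ((Sq (p.eval n)).card : ℝ) ≤ 2 ^ (p.eval n + 1) := by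
      have := card_Sq (p.eval n)
      have h3 : (Sq (p.eval n)).card ≤ 2 ^ (p.eval n + 1) := by omega
      exact_mod_cast h3
    have h3 : h.eval n = (p.eval n + 1) + (2 * n + 2) := by
      simp only [hh, Polynomial.eval_add, Polynomial.eval_mul, Polynomial.eval_X,
        Polynomial.eval_ofNat]
      omega
    calc ((Sq (p.eval n)).card : ℝ) * ((1 : ℝ) / 2) ^ (h.eval n)
        ≤ 2 ^ (p.eval n + 1) * ((1 : ℝ) / 2) ^ (h.eval n) := by gcongr
      _ = (1 / 2) ^ (2 * n + 2) := by
          rw [h3, pow_add (1 / 2 : ℝ), ← mul_assoc, ← mul_pow]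
          norm_num
  · intro A hA
    have hA' : ∀ w : List Bool, w.length ≤ p.eval n → A ∉ D w := by
      intro w hw hAw
      exact hA (Set.mem_biUnion (Finset.mem_coe.2 (mem_Sq.2 hw)) hAw)
    refine ⟨?_, ?_⟩
    · rintro ⟨w, hw, hy⟩
      have h1 : ∃ H, Ce w H A := by
        by_contra hc
        exact hA' w hw (Or.inl ⟨hy, fun H hH => hc ⟨H, hH⟩⟩)
      obtain ⟨H, hH⟩ := h1
      refine ⟨H.image fun z => (z, A z), ⟨w, hw, H, A, hH, rfl⟩, ?_⟩
      intro e he
      obtain ⟨z, -, rfl⟩ := Finset.mem_image.1 he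
      rfl
    · rintro hno ⟨c, ⟨w, hw, H, A', hH, rfl⟩, hag⟩
      refine hA' w hw (Or.inr ⟨hno w hw, H, ?_⟩)
      refine (hCe w hw).1 H A' A ?_ hH
      intro z hz
      exact (hag (z, A' z) (Finset.mem_image_of_mem _ hz)).symm

/-! ### The oracle which refers to itself -/

/-- The oracle `B` on the strings of length less than `m`. -/
def cut (B : Oracle) (m : ℕ) : Oracle := fun z => if z.length < m then B z else false

/-- The approximations. -/
def appr (F : List Bool → Oracle → Bool) : ℕ → Oracle
  | 0 => fun _ => false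
  | m + 1 => fun z => if z.length = m then F z (appr F m) else appr F m z

lemma appr_high (F : List Bool → Oracle → Bool) : ∀ (m : ℕ) (z : List Bool), m ≤ z.length →
    appr F m z = false
  | 0, _, _ => rfl
  | m + 1, z, h => by
    simp only [appr]
    rw [if_neg (by omega)]
    exact appr_high F m z (by omega)

lemma appr_low (F : List Bool → Oracle → Bool) : ∀ (m : ℕ) (z : List Bool), z.length < m →
    appr F m z = F z (appr F z.length)
  | 0, _, h => absurd h (Nat.not_lt_zero _)
  | m + 1, z, h => by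
    simp only [appr]
    by_cases he : z.length = m
    · rw [if_pos he, he]
    · rw [if_neg he]
      exact appr_low F m z (by omega)

/-- There is an oracle which is given by its values on the shorter strings. -/
theorem exists_self (F : List Bool → Oracle → Bool) :
    ∃ B : Oracle, ∀ z, B z = F z (cut B z.length) := by
  refine ⟨fun z => F z (appr F z.length), fun z => ?_⟩
  have e : cut (fun z => F z (appr F z.length)) z.length = appr F z.length := by
    funext y
    unfold cut
    by_cases h : y.length < z.length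
    · rw [if_pos h, appr_low F _ y h]
    · rw [if_neg h, appr_high F _ y (not_lt.1 h)]
  rw [e]

lemma cut_cut (B : Oracle) {m n : ℕ} (h : m ≤ n) : cut (cut B n) m = cut B m := by
  funext z
  unfold cut
  by_cases h1 : z.length < m
  · rw [if_pos h1, if_pos h1, if_pos (h1.trans_le h)]
  · rw [if_neg h1, if_neg h1]

end Pool.Agent.W938.QX
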