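import Pool.Agent.W938.QX.Hybrid
import Pool.Agent.W938.QX.Orc
import Pool.Agent.W938.QM.Dev

/-!
# The certificates for one input and one classical witness
-/

set_option autoImplicit false
set_option linter.unusedSectionVars false

namespace Pool.Agent.W938.QX

open Finset Pool.Agent.NPC Pool.Agent.H620R2.Gauge Pool.Agent.W938.Hyb Pool.Agent.W938.CQ
open Pool.Agent.H722R2.AA Pool.Agent.H746R2.AA Pool.Agent.H703R2.AA Pool.Agent.H703R2.AA.Pr
open Pool.Agent.H628R3.RO (randomOracle)
open Pool.Agent.W938.QM (circ Sq mem_Sq card_Sq load_norm wq wq_nonneg Cov qn)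

/-- The real part and the imaginary part of a vector. -/
def cpt {b : ℕ} (ψ : (Fin b → Bool) → ℂ) (c : Bool) : (Fin b → Bool) → ℝ :=
  fun t => if c then (ψ t).re else (ψ t).im

lemma norm_cpt {b : ℕ} (m : ℕ) (ψ : (Fin b → Bool) → ℂ) :
    ∑ c : Bool, ∑ s, load m (cpt ψ c) s ^ 2 = ∑ t, ‖ψ t‖ ^ 2 := by
  simp only [load_norm]
  rw [Fintype.sum_bool, ← Finset.sum_add_distrib]
  refine Finset.sum_congr rfl fun t _ => ?_
  rw [Complex.sq_norm, Complex.normSq_apply]
  simp only [cpt, if_true, Bool.false_eq_true, if_false]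
  ring

lemma accW_cpt {b : ℕ} (m : ℕ) (O : Oracle) (l : List Gate) (ψ : (Fin b → Bool) → ℂ) :
    accW O l m ψ = ∑ c : Bool, accQ b O l (load m (cpt ψ c)) := by
  rw [Fintype.sum_bool]
  unfold accW accQ
  rw [← Finset.sum_add_distrib]
  refine Finset.sum_congr rfl fun s _ => ?_
  split_ifs
  · rfl
  · rw [add_zero]

/-- Some witness state of the family is accepted with probability at least `α`. -/
def YesE (W : ∀ b : ℕ, Set ((Fin b → Bool) → ℂ)) (α : ℝ) (M : Alg) (C : List Bool → List Gate)
    (b m : ℕ) (u : List Bool) (O : Oracle) : Prop :=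
  ∃ ψ ∈ W b, ∑ t, ‖ψ t‖ ^ 2 = 1 ∧ α ≤ accW O (circ M C O u) m ψ

/-- All witness states of the family are accepted with probability at most `β`. -/
def NoE (W : ∀ b : ℕ, Set ((Fin b → Bool) → ℂ)) (β : ℝ) (M : Alg) (C : List Bool → List Gate)
    (b m : ℕ) (u : List Bool) (O : Oracle) : Prop :=
  ∀ ψ ∈ W b, ∑ t, ‖ψ t‖ ^ 2 = 1 → accW O (circ M C O u) m ψ ≤ β

/-- The exponent. -/
def Jr (r k : ℕ) : ℕ := 32 * k ^ 2 * (r + 1) ^ 2

/-- The base. -/
def Gr {K : Type} [CommSemiring K] (r k : ℕ) (t q h : K) : K :=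
  16 * ((r : K) + 1) * (2 * ((t + r) + ((r : K) + 1)) * (q + 2) +
    2 * (2 * (32 * (k : K) ^ 2 * ((r : K) + 1) ^ 2) + h)) * (16 * (k : K) ^ 2 * ((r : K) + 1)) ^ 2

/-- The bound for the number of the strings in a certificate. -/
def bd {K : Type} [CommSemiring K] (r k : ℕ) (t q h : K) : K :=
  (t + r) + ((r : K) + 1) * Gr r k t q h ^ Jr r k

/-- The strings of even length at most `q`. -/
noncomputable def Ev (q : ℕ) : Finset (List Bool) := (Sq q).filter fun z => z.length % 2 = 0

lemma mem_Ev {q : ℕ} {z : List Bool} : z ∈ Ev q ↔ z.length ≤ q ∧ z.length % 2 = 0 := by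
  unfold Ev
  rw [Finset.mem_filter, mem_Sq]

lemma card_Ev (q : ℕ) : (Ev q).card + 1 ≤ 2 ^ (q + 1) :=
  (Nat.add_le_add_right (Finset.card_le_card (Finset.filter_subset _ _)) 1).trans (card_Sq q)

lemma mix_even {A B : Oracle} {z : List Bool} (h : z.length % 2 = 0) : mix A B z = A z := by
  unfold mix
  rw [if_pos h]

lemma mix_odd {A B : Oracle} {z : List Bool} (h : ¬ z.length % 2 = 0) : mix A B z = B z := by
  unfold mix
  rw [if_neg h]

lemma accW_local {O O' : Oracle} {b m : ℕ} (l : List Gate)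
    (h : ∀ q' k, Sum.inr (true, q', k) ∈ l → ∀ z : List Bool, z.length = q'.length → O z = O' z)
    (ψ : (Fin b → Bool) → ℂ) : accW O l m ψ = accW O' l m ψ := by
  unfold accW
  rw [circAct_local l h, circAct_local l h]

theorem dev (W : ∀ b : ℕ, Set ((Fin b → Bool) → ℂ)) (α β : ℝ) (k : ℕ) (hk : 0 < k)
    (hαβ : 1 / (k : ℝ) ≤ α - β) (B : Oracle) (M : Alg)
    (C : List Bool → List Gate) (b m : ℕ) (u : List Bool) (r t q h : ℕ)
    (hS : ∀ A : Oracle, ∃ S : Finset (List Bool), S.card ≤ t ∧ (∀ z ∈ S, z.length ≤ q) ∧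
      ∀ A' : Oracle, (∀ z ∈ S, A' z = A z) → M.out A' u = M.out A u)
    (hq : ∀ (A : Oracle) z, M.out A u = some z → ∀ q' k, Sum.inr (true, q', k) ∈ C z →
      q'.length ≤ q)
    (hr : ∀ z, numE (C z) ≤ r) :
    ∃ Ce : Finset (List Bool) → Oracle → Prop,
      (∀ (H : Finset (List Bool)) (A A' : Oracle), (∀ z ∈ H, A z = A' z) → Ce H A → Ce H A') ∧
      (∀ H A, Ce H A → H ⊆ Ev q ∧ H.card ≤ bd r k t q h) ∧
      MeasurableSet {A : Oracle | (YesE W α M C b m u (mix A B) ∧ ∀ H, ¬ Ce H A) ∨
        (NoE W β M C b m u (mix A B) ∧ ∃ H, Ce H A)} ∧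
      randomOracle.real {A : Oracle | (YesE W α M C b m u (mix A B) ∧ ∀ H, ¬ Ce H A) ∨
        (NoE W β M C b m u (mix A B) ∧ ∃ H, Ce H A)} ≤ (1 / 2) ^ h := by
  classical
  have hS' : ∀ A : Oracle, ∃ S : Finset (List Bool), S.card ≤ t ∧ (∀ z ∈ S, z ∈ Ev q) ∧
      ∀ A' : Oracle, (∀ z ∈ S, A' z = A z) → M.out (mix A' B) u = M.out (mix A B) u := by
    intro A
    obtain ⟨S, h1, h2, h3⟩ := hS (mix A B)
    refine ⟨S.filter fun z => z.length % 2 = 0,
      (Finset.card_le_card (Finset.filter_subset _ _)).trans h1, ?_, ?_⟩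
    · intro z hz
      rw [Finset.mem_filter] at hz
      exact mem_Ev.2 ⟨h2 z hz.1, hz.2⟩
    · intro A' hA
      refine h3 _ fun z hz => ?_
      by_cases he : z.length % 2 = 0
      · rw [mix_even he, mix_even he]
        exact hA z (Finset.mem_filter.2 ⟨hz, he⟩)
      · rw [mix_odd he, mix_odd he]
  choose S hS1 hS2 hS3 using hS'
  have hcirc : ∀ A A' : Oracle, (∀ z ∈ S A, A' z = A z) →
      circ M C (mix A' B) u = circ M C (mix A B) u := by
    intro A A' hA
    unfold circ
    rw [hS3 A A' hA]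
  have hlen : ∀ (O : Oracle) q' k, Sum.inr (true, q', k) ∈ circ M C O u → q'.length ≤ q := by
    intro O q' k hk
    unfold circ at hk
    cases ho : M.out O u with
    | none => rw [ho] at hk; simp at hk
    | some z => rw [ho] at hk; exact hq O z ho q' k hk
  have hnum : ∀ O : Oracle, numE (circ M C O u) ≤ r := by
    intro O
    unfold circ
    cases M.out O u with
    | none => exact Nat.zero_le _
    | some z => exact hr z
  have hmix : ∀ A A' : Oracle, (∀ z ∈ Ev q, A z = A' z) → ∀ z : List Bool, z.length ≤ q →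
      mix A B z = mix A' B z := by
    intro A A' hA z hz
    by_cases he : z.length % 2 = 0
    · rw [mix_even he, mix_even he]
      exact hA z (mem_Ev.2 ⟨hz, he⟩)
    · rw [mix_odd he, mix_odd he]
  have hacc : ∀ A A' : Oracle, (∀ z ∈ Ev q, A z = A' z) → ∀ ψ : (Fin b → Bool) → ℂ,
      accW (mix A' B) (circ M C (mix A' B) u) m ψ = accW (mix A B) (circ M C (mix A B) u) m ψ := by
    intro A A' hA ψ
    rw [hcirc A A' fun z hz => (hA z (hS2 A z hz)).symm]
    refine accW_local _ (fun q' k hk z hz => ?_) ψ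
    exact (hmix A A' hA z (by rw [hz]; exact hlen _ q' k hk)).symm
  set R : ℝ := (r : ℝ) + 1 with hR
  have hr0 : (0 : ℝ) ≤ r := Nat.cast_nonneg r
  have hR1 : 1 ≤ R := by linarith
  have hR0 : 0 < R := by linarith
  have ht0 : (0 : ℝ) ≤ t := Nat.cast_nonneg t
  have hq0 : (0 : ℝ) ≤ q := Nat.cast_nonneg q
  have hh0 : (0 : ℝ) ≤ h := Nat.cast_nonneg h
  set V : Oracle → List Bool → ℝ := fun A z =>
    if hy : YesE W α M C b m u (mix A B) then
      ∑ c : Bool, wq (mix A B) (circ M C (mix A B) u) (load m (cpt hy.choose c)) z else 0 with hV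
  have hV0 : ∀ A z, 0 ≤ V A z := by
    intro A z
    simp only [hV]
    split_ifs
    · exact Finset.sum_nonneg fun c _ => wq_nonneg _ _ _ _
    · exact le_rfl
  have hVsum : ∀ (A : Oracle) (T : Finset (List Bool)), T ⊆ Ev q → ∑ z ∈ T, V A z ≤ r := by
    intro A T hT
    simp only [hV]
    split_ifs with hy
    · rw [Finset.sum_comm]
      have h1 : ∀ c : Bool, ∑ z ∈ T, wq (mix A B) (circ M C (mix A B) u)
          (load m (cpt hy.choose c)) z ≤ numE (circ M C (mix A B) u) *
            ∑ s, load m (cpt hy.choose c) s ^ 2 := fun c =>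
        sum_wq_even _ T (fun z hz => (mem_Ev.1 (hT hz)).2) _ _
      refine (Finset.sum_le_sum fun c _ => h1 c).trans ?_
      rw [← Finset.mul_sum, norm_cpt, hy.choose_spec.2.1, mul_one]
      exact_mod_cast hnum (mix A B)
    · simpa using hr0
  set Q : Oracle → List Bool → ℝ := fun A z => if z ∈ S A then 1 else V A z with hQ
  have hk0 : (0 : ℝ) < k := by exact_mod_cast hk
  have hk1 : (1 : ℝ) ≤ k := by exact_mod_cast hk
  have hk2 : (1 : ℝ) ≤ (k : ℝ) ^ 2 := one_le_pow₀ hk1
  have hkR : (1 : ℝ) ≤ (k : ℝ) ^ 2 * R := one_le_mul_of_one_le_of_one_le hk2 hR1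
  obtain ⟨J, hJ⟩ : ∃ J, J = Jr r k := ⟨_, rfl⟩
  have hJ1 : 1 ≤ J := by
    rw [hJ]
    unfold Jr
    exact Nat.succ_le_of_lt (by positivity)
  have hJ' : (J : ℝ) = 32 * (k : ℝ) ^ 2 * R ^ 2 := by
    rw [hJ, hR]
    unfold Jr
    push_cast
    ring
  set G : ℝ := 16 * R * (2 * (((t + r : ℕ) : ℝ) + R) * (q + 2) + 2 * (2 * J + h)) *
    (16 * (k : ℝ) ^ 2 * R) ^ 2 with hG
  have hbase : 1 ≤ 2 * (((t + r : ℕ) : ℝ) + R) * (q + 2) + 2 * (2 * J + h) := by
    push_cast
    nlinarith [mul_nonneg (add_nonneg (add_nonneg ht0 hr0) hR0.le) hq0, Nat.cast_nonneg (α := ℝ) J]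
  obtain ⟨Ce, h1, h2, h3, h4⟩ := orc (Ev q) q (card_Ev q) (fun A => YesE W α M C b m u (mix A B))
    (fun A => NoE W β M C b m u (mix A B)) Q
    (fun A A' hA => by
      rintro ⟨ψ, h0, h1, h2⟩
      refine ⟨ψ, h0, h1, ?_⟩
      rw [hacc A A' hA]
      exact h2)
    (fun A A' hA hN ψ h0 h1 => by
      rw [hacc A A' hA]
      exact hN ψ h0 h1)
    (fun A z => by
      simp only [hQ]
      split_ifs
      · norm_num
      · exact hV0 A z)
    R (1 / (16 * (k : ℝ) ^ 2 * R)) (t + r) hR0
    (fun A _ => by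
      refine le_trans (Finset.sum_le_sum (g := fun z => V A z) fun z _ => ?_)
        ((hVsum A _ (Finset.Subset.refl _)).trans (by linarith))
      simp only [hQ]
      split_ifs with hz
      · have e : ind ((1 : ℝ) < 1) = 0 := by
          unfold ind
          rw [if_neg (lt_irrefl _)]
        rw [e, mul_zero]
        exact hV0 A z
      · exact mul_le_of_le_one_right (hV0 A z) (ind_le_one _))
    (fun A _ T hT1 hT2 => by
      have h5 : T ⊆ S A ∪ T.filter fun z => z ∉ S A := by
        intro z hz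
        by_cases hzS : z ∈ S A
        · exact Finset.mem_union_left _ hzS
        · exact Finset.mem_union_right _ (Finset.mem_filter.2 ⟨hz, hzS⟩)
      have h6 : (T.filter fun z => z ∉ S A).card ≤ r := by
        have h7 : ((T.filter fun z => z ∉ S A).card : ℝ) ≤ r := by
          refine le_trans ?_ (hVsum A (T.filter fun z => z ∉ S A)
            ((Finset.filter_subset _ _).trans hT1))
          calc ((T.filter fun z => z ∉ S A).card : ℝ)
              = ∑ _z ∈ T.filter (fun z => z ∉ S A), (1 : ℝ) := by simp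
            _ ≤ ∑ z ∈ T.filter (fun z => z ∉ S A), V A z := by
                refine Finset.sum_le_sum fun z hz => ?_
                rw [Finset.mem_filter] at hz
                have h8 := hT2 z hz.1
                simp only [hQ, if_neg hz.2] at h8
                exact h8
        exact_mod_cast h7
      have h9 := (Finset.card_le_card h5).trans (Finset.card_union_le _ _)
      have h10 := hS1 A
      omega)
    (by positivity)
    (fun A A' hY hN => by
      have hpos : ∀ z, 0 ≤ Q A z * ind (A z ≠ A' z) := by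
        intro z
        refine mul_nonneg ?_ (ind_nonneg _)
        simp only [hQ]
        split_ifs
        · norm_num
        · exact hV0 A z
      by_cases hag : ∀ z ∈ S A, A' z = A z
      · have hc := hcirc A A' hag
        obtain ⟨hu0, hu1, hu2⟩ := hY.choose_spec
        have hu3 := hN hY.choose hu0 hu1
        rw [hc] at hu3
        rw [accW_cpt] at hu2 hu3
        have hcov : Cov (b + m) (mix A B) (mix A' B) ((Ev q).filter fun z => A z ≠ A' z)
            (circ M C (mix A B) u) := by
          intro q' k hk s hkm hne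
          have hl : (qn q' k s).length ≤ q := by
            unfold qn
            rw [dif_pos hkm, List.length_map]
            exact hlen (mix A B) q' k hk
          by_cases he : (qn q' k s).length % 2 = 0
          · rw [mix_even he, mix_even he] at hne
            exact Finset.mem_filter.2 ⟨mem_Ev.2 ⟨hl, he⟩, hne⟩
          · rw [mix_odd he, mix_odd he] at hne
            exact absurd rfl hne
        have h5 := weight_far (mix A B) (mix A' B) _
          (fun z hz => by rw [mix_odd hz, mix_odd hz]) _ hcov b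
          (fun c => load m (cpt hY.choose c)) (by rw [norm_cpt, hu1]) α β k hk0 hαβ hu2 hu3 R
          hR0 (by
            have : ((numE (circ M C (mix A B) u) : ℕ) : ℝ) ≤ r := by exact_mod_cast hnum _
            linarith)
        refine h5.trans ?_
        rw [Finset.sum_filter]
        refine Finset.sum_le_sum fun z _ => ?_
        by_cases hz : A z ≠ A' z
        · have e : ind (A z ≠ A' z) = 1 := by
            unfold ind
            rw [if_pos hz]
          have hzS : z ∉ S A := fun hzS => hz (hag z hzS).symm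
          rw [if_pos hz, e, mul_one]
          simp only [hQ, if_neg hzS, hV, dif_pos hY]
          exact le_rfl
        · rw [if_neg hz]
          exact hpos z
      · push Not at hag
        obtain ⟨z, hz, hne⟩ := hag
        have h5 : (1 : ℝ) ≤ ∑ z ∈ Ev q, Q A z * ind (A z ≠ A' z) := by
          have h6 := Finset.single_le_sum (f := fun z => Q A z * ind (A z ≠ A' z))
            (fun z _ => hpos z) (hS2 A z hz)
          refine le_trans (le_of_eq ?_) h6
          have e : ind (A z ≠ A' z) = 1 := by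
            unfold ind
            rw [if_pos hne.symm]
          simp only [hQ, if_pos hz, e, mul_one]
        refine le_trans ?_ h5
        rw [div_le_one (by positivity)]
        nlinarith)
    J hJ1
    (by
      rw [hJ']
      have e : 32 * (k : ℝ) ^ 2 * R ^ 2 * (1 / (16 * (k : ℝ) ^ 2 * R)) = 2 * R := by
        field_simp
        norm_num
      rw [e])
    ((1 / 2) ^ h) G (by positivity) (pow_le_one₀ (by norm_num) (by norm_num))
    (by
      have h5 : 1 ≤ 16 * R := by linarith
      have h6 : 1 ≤ (16 * (k : ℝ) ^ 2 * R) ^ 2 := one_le_pow₀ (by nlinarith)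
      have h7 : 1 ≤ 16 * R * (2 * (((t + r : ℕ) : ℝ) + R) * (q + 2) + 2 * (2 * J + h)) :=
        one_le_mul_of_one_le_of_one_le h5 hbase
      exact one_le_mul_of_one_le_of_one_le h7 h6)
    (by
      have hJ0 : (0 : ℝ) < J := by rw [hJ']; positivity
      have h5 : Real.log (2 * J / (1 / 2) ^ h) ≤ 2 * J + h := by
        rw [Real.log_div (by positivity) (by positivity), Real.log_pow]
        have h6 : Real.log (2 * (J : ℝ)) ≤ 2 * J :=
          (Real.log_le_sub_one_of_pos (by positivity)).trans (by linarith)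
        have h7 : Real.log (1 / 2) = - Real.log 2 := by
          rw [one_div, Real.log_inv]
        have h8 : Real.log 2 ≤ 1 := by
          have := Real.log_two_lt_d9
          linarith
        rw [h7]
        nlinarith
      have h6 : (1 / (16 * (k : ℝ) ^ 2 * R)) ^ 2 * G = 16 * R *
          (2 * (((t + r : ℕ) : ℝ) + R) * (q + 2) + 2 * (2 * J + h)) := by
        simp only [hG]
        field_simp
      rw [h6]
      gcongr)
  refine ⟨Ce, h1, ?_, h3, h4⟩
  intro H A hc
  obtain ⟨h5, h6⟩ := h2 H A hc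
  refine ⟨h5, ?_⟩
  have h7 : ((bd r k t q h : ℕ) : ℝ) = ((t + r : ℕ) : ℝ) + R * G ^ J := by
    have e : ((Gr r k t q h : ℕ) : ℝ) = G := by
      unfold Gr
      rw [hG, hJ', hR]
      push_cast
      ring
    unfold bd
    rw [← hJ, Nat.cast_add, Nat.cast_mul, Nat.cast_pow, e]
    push_cast
    rw [hR]
  have h8 : (H.card : ℝ) ≤ ((bd r k t q h : ℕ) : ℝ) := by
    rw [h7]
    exact h6
  exact_mod_cast h8

end Pool.Agent.W938.QX
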