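import Pool.Agent.W938.QX.NPv
import Pool.Agent.W938.QM.Main

/-!
# Quantum proofs with few questions to a random oracle are classical proofs
-/

set_option autoImplicit false
set_option linter.unusedSectionVars false

namespace Pool.Agent.W938.QX

open Pool.Agent.NPC Pool.Agent.H620R2.Gauge Pool.Agent.W938.Hyb
open Pool.Agent.H628R3.RO (randomOracle)
open Pool.Agent.W938.QM (circ Agree bc)

/-- The verifiers. -/
def Ver : Type := {g : Alg × (List Bool → List Gate) × Polynomial ℕ × ℕ × ℕ × ℚ × ℚ //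
  PolyTime (fun z => bits (g.2.1 z)) ∧ (∀ z, numE (g.2.1 z) ≤ g.2.2.2.1) ∧
    g.2.2.2.2.2.2 < g.2.2.2.2.2.1}

instance : Countable Ver := by
  have h1 : Countable {D : List Bool → List Bool | PolyTime D} := countable_polyTime.to_subtype
  have h2 : Countable (Polynomial ℕ) := by
    have : Function.Injective (fun p : Polynomial ℕ => (p.toFinsupp.coeff : ℕ →₀ ℕ)) := by
      intro p q h
      ext n
      exact DFunLike.congr_fun h n
    exact this.countable
  let F : Ver → Alg × {D : List Bool → List Bool | PolyTime D} × Polynomial ℕ × ℕ × ℕ × ℚ × ℚ :=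
    fun g => (g.1.1, ⟨fun z => bits (g.1.2.1 z), g.2.1⟩, g.1.2.2)
  have hF : Function.Injective F := by
    rintro ⟨⟨M, C, p⟩, h⟩ ⟨⟨M', C', p'⟩, h'⟩ heq
    simp only [F, Prod.mk.injEq, Subtype.mk.injEq] at heq
    obtain ⟨rfl, h3, rfl⟩ := heq
    have h4 : C = C' := by
      funext z
      exact bits_injective (congrFun h3 z)
    subst h4
    rfl
  exact hF.countable

/-- The number which is used for the gap. -/
def kk (α β : ℚ) : ℕ := ⌈1 / (α - β)⌉₊

lemma kk_pos {α β : ℚ} (h : β < α) : 0 < kk α β := by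
  unfold kk
  rw [Nat.ceil_pos]
  have : 0 < α - β := by linarith
  positivity

lemma kk_le {α β : ℚ} (h : β < α) : 1 / (kk α β : ℝ) ≤ (α : ℝ) - (β : ℝ) := by
  have h0 : 0 < α - β := by linarith
  have h1 : 1 / (α - β) ≤ (kk α β : ℚ) := Nat.le_ceil _
  have h2 : (0 : ℚ) < (kk α β : ℚ) := by exact_mod_cast kk_pos h
  have h3 : 1 / (kk α β : ℚ) ≤ α - β := by
    rw [div_le_iff₀ h2]
    rw [div_le_iff₀ h0] at h1
    linarith
  have h4 : ((1 / (kk α β : ℚ) : ℚ) : ℝ) ≤ ((α - β : ℚ) : ℝ) := Rat.cast_le.2 h3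
  push_cast at h4
  exact h4

theorem main (W : ℕ → ∀ b : ℕ, Set ((Fin b → Bool) → ℂ)) :
    ∃ B : Oracle, ∀ᵐ A ∂randomOracle, ∀ (i r : ℕ) (c s : ℝ) (Y N : Set (List Bool)), s < c →
      IsQMA (W i) r c s (mix A B) Y N → IsNPP (mix A B) Y N := by
  classical
  have hfam : ∀ g : Ver, _ := fun g => fam (W g.1.2.2.2.2.1) (g.1.2.2.2.2.2.1 : ℝ)
    (g.1.2.2.2.2.2.2 : ℝ) (kk g.1.2.2.2.2.2.1 g.1.2.2.2.2.2.2) (kk_pos g.2.2.2) (kk_le g.2.2.2)
    g.1.1 g.1.2.1 g.1.2.2.1 g.1.2.2.2.1 g.2.1 g.2.2.1
  choose P hloc hP using hfam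
  choose T Bad hT1 hT2 hT3 hT4 using hP
  obtain ⟨ι, hι⟩ := Countable.exists_injective_nat (Ver × Finset (List Bool) × Finset (List Bool))
  set κ : Ver × Finset (List Bool) × Finset (List Bool) → List Bool := fun g =>
    List.replicate (ι g) true with hκ
  have hκi : Function.Injective κ := by
    intro g g' h
    apply hι
    have := congrArg List.length h
    simpa [hκ] using this
  set T' : Ver × Finset (List Bool) × Finset (List Bool) → Oracle → List Bool →
      Set (Finset (List Bool × Bool)) := fun g B x =>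
    if x ∈ g.2.1 then (if x ∈ g.2.2 then {∅} else ∅) else T g.1 B x with hT'
  obtain ⟨B, hBF⟩ := exists_self (fun u B => decide (∃ (g : Ver × Finset (List Bool) ×
    Finset (List Bool)) (w x : List Bool), u = enc (κ g) (P g.1) w x ∧
      ∃ c, unbits (List (List Bool × Bool)) w = some c ∧
        c.toFinset ∈ T' g (cut B ((P g.1).eval x.length + 1)) x))
  have hBs : ∀ g x w, B (enc (κ g) (P g.1) w x) = true ↔
      ∃ c, unbits (List (List Bool × Bool)) w = some c ∧
        c.toFinset ∈ T' g (cut B ((P g.1).eval x.length + 1)) x := by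
    intro g x w
    rw [hBF, decide_eq_true_eq]
    have hcut : ∀ g' : Ver × Finset (List Bool) × Finset (List Bool), g' = g →
        cut (cut B (enc (κ g) (P g.1) w x).length) ((P g'.1).eval x.length + 1) =
          cut B ((P g'.1).eval x.length + 1) := by
      rintro g' rfl
      exact cut_cut B (enc_long _ _ _ _)
    constructor
    · rintro ⟨g', w', x', h1, h2⟩
      have h3 := congrArg unpair h1
      unfold enc at h3
      rw [unpair_pairBits, unpair_pairBits, Prod.mk.injEq] at h3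
      have h4 := congrArg unpair h3.2
      rw [unpair_pairBits, unpair_pairBits, Prod.mk.injEq] at h4
      have h5 := congrArg unpair h4.2
      rw [unpair_pairBits, unpair_pairBits, Prod.mk.injEq] at h5
      have h6 := hκi h3.1
      obtain ⟨h7, -⟩ := h5
      obtain ⟨h8, -⟩ := h4
      subst h6 h7 h8
      rw [hcut g rfl] at h2
      exact h2
    · intro h
      refine ⟨g, w, x, rfl, ?_⟩
      rw [hcut g rfl]
      exact h
  refine ⟨B, ?_⟩
  have hae : ∀ᵐ A ∂randomOracle, ∀ g : Ver,
      {x | A ∈ Bad g (cut B ((P g).eval x.length + 1)) x}.Finite := by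
    rw [MeasureTheory.ae_all_iff]
    intro g
    exact bc (fun x => Bad g (cut B ((P g).eval x.length + 1)) x) (fun x => hT3 g _ x)
  filter_upwards [hae] with A hA i r c s Y N hsc hQ
  obtain ⟨F, C, p, ⟨M, hM⟩, hC, hnum, hx⟩ := hQ
  obtain ⟨β, hβ1, hβ2⟩ := exists_rat_btwn hsc
  obtain ⟨α, hα1, hα2⟩ := exists_rat_btwn hβ2
  set g : Ver := ⟨(M, C, p, r, i, α, β), hC, hnum, by exact_mod_cast hα1⟩ with hg
  set E : Finset (List Bool) := (hA g).toFinset with hE
  set T0 : List Bool → Set (Finset (List Bool × Bool)) := fun x =>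
    T' (g, E, E.filter fun x => x ∈ Y) (cut B ((P g).eval x.length + 1)) x with hT0
  have hc : ∀ w x, circ M C (mix A B) (pairBits w x) = C (F (pairBits w x)) := by
    intro w x
    unfold circ
    rw [hM]
  have hl := fun x => hloc g x (mix A B) (mix A (cut B ((P g).eval x.length + 1))) (by
    intro z hz
    unfold mix cut
    rw [if_pos (Nat.lt_succ_of_le hz)])
  refine ⟨{x | ∃ e ∈ T0 x, Agree A e}, ?_, ?_, ?_⟩
  · refine np_of A B (κ (g, E, E.filter fun x => x ∈ Y)) (P g) T0 ?_
      (fun x w => hBs (g, E, E.filter fun x => x ∈ Y) x w) _ (fun x => Iff.rfl)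
    intro x e he
    simp only [hT0, hT'] at he
    split_ifs at he with h1 h2
    · rw [Set.mem_singleton_iff] at he
      subst he
      simp
    · exact absurd he (Set.notMem_empty _)
    · exact hT1 g _ x e he
  · intro x hxY
    show ∃ e ∈ T0 x, Agree A e
    simp only [hT0, hT']
    by_cases hxE : x ∈ E
    · rw [if_pos hxE, if_pos (Finset.mem_filter.2 ⟨hxE, hxY⟩)]
      exact ⟨∅, rfl, fun e he => absurd he (Finset.notMem_empty _)⟩
    · rw [if_neg hxE]
      have hbad : A ∉ Bad g (cut B ((P g).eval x.length + 1)) x := by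
        intro h
        exact hxE ((hA g).mem_toFinset.2 h)
      obtain ⟨h1, -⟩ := hT4 g _ x A hbad
      refine h1 ?_
      obtain ⟨w, ψ, hw, hψW, hψ, hacc⟩ := (hx x).1 hxY
      refine ⟨w, hw, (hl x w hw).1 ⟨ψ, hψW, hψ, ?_⟩⟩
      show (α : ℝ) ≤ accW (mix A B) (circ M C (mix A B) (pairBits w x)) _ ψ
      rw [hc]
      exact hα2.le.trans hacc
  · rw [Set.disjoint_left]
    rintro x ⟨e, he, hag⟩ hxN
    simp only [hT0, hT'] at he
    by_cases hxE : x ∈ E
    · rw [if_pos hxE] at he
      by_cases hxY : x ∈ Y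
      · obtain ⟨w, ψ, hw, hψW, hψ, hacc⟩ := (hx x).1 hxY
        have h2 := (hx x).2 hxN w ψ hw hψW hψ
        linarith
      · rw [if_neg (fun h => hxY (Finset.mem_filter.1 h).2)] at he
        exact absurd he (Set.notMem_empty _)
    · rw [if_neg hxE] at he
      have hbad : A ∉ Bad g (cut B ((P g).eval x.length + 1)) x := by
        intro h
        exact hxE ((hA g).mem_toFinset.2 h)
      obtain ⟨-, h2⟩ := hT4 g _ x A hbad
      refine h2 ?_ ⟨e, he, hag⟩
      intro w hw
      refine (hl x w hw).2 fun ψ hψW hψ => ?_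
      show accW (mix A B) (circ M C (mix A B) (pairBits w x)) _ ψ ≤ (β : ℝ)
      rw [hc]
      exact ((hx x).2 hxN w ψ hw hψW hψ).trans hβ1.le

end Pool.Agent.W938.QX
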