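import Pool.Agent.W938.QX.Dev
import Pool.Agent.H620R2.GaugeR.Seq

/-!
# Classical proofs are quantum proofs
-/

set_option autoImplicit false
set_option linter.unusedSectionVars false

namespace Pool.Agent.W938.QX

open Pool.Agent.NPC Pool.Agent.H620R2.Gauge Pool.Agent.W938.Hyb

lemma rd_anc {b m : ℕ} (hm : 0 < m) (s : Fin (b + m) → Bool) :
    rd s b = s (Fin.natAdd b ⟨0, hm⟩) := by
  unfold rd
  rw [dif_pos (by omega)]
  rfl

lemma load_anc {b m : ℕ} (hm : 0 < m) (u : (Fin b → Bool) → ℝ) (s : Fin (b + m) → Bool)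
    (h : rd s b = true) : load m u s = 0 := by
  unfold load
  rw [if_neg]
  intro hc
  rw [rd_anc hm, hc] at h
  exact Bool.false_ne_true h

/-- The empty circuit rejects. -/
lemma acc_nil {b m : ℕ} (hm : 0 < m) (O : Oracle) (ψ : (Fin b → Bool) → ℂ) :
    accW O [] m ψ = 0 := by
  unfold accW
  refine Finset.sum_eq_zero fun s _ => ?_
  split_ifs with h
  · simp only [circAct]
    rw [load_anc hm _ s h, load_anc hm _ s h]
    ring
  · rfl

/-- The circuit which flips the first ancilla accepts. -/
lemma acc_not {b m : ℕ} (hm : 0 < m) (O : Oracle) (ψ : (Fin b → Bool) → ℂ)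
    (hψ : ∑ t, ‖ψ t‖ ^ 2 = 1) : accW O [Sum.inr (false, [], b)] m ψ = 1 := by
  have hb : b < b + m := by omega
  have key : ∀ (u : (Fin b → Bool) → ℝ) (s : Fin (b + m) → Bool),
      circAct O [Sum.inr (false, [], b)] (load m u) s =
        load m u (flipIf (fun _ => true) b s) := by
    intro u s
    simp only [circAct, gateAct, List.all_nil]
  have hz : ∀ (u : (Fin b → Bool) → ℝ) (s : Fin (b + m) → Bool), ¬ rd s b = true →
      load m u (flipIf (fun _ => true) b s) = 0 := by
    intro u s hs
    refine load_anc hm u _ ?_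
    unfold flipIf rd at *
    rw [dif_pos hb] at hs ⊢
    rw [dif_pos hb]
    simp only [Function.update_self]
    cases h : s ⟨b, hb⟩
    · rfl
    · exact absurd h hs
  unfold accW
  have h1 : ∀ s : Fin (b + m) → Bool, (if rd s b then
      circAct O [Sum.inr (false, [], b)] (load m fun t => (ψ t).re) s ^ 2 +
        circAct O [Sum.inr (false, [], b)] (load m fun t => (ψ t).im) s ^ 2 else 0) =
      load m (fun t => (ψ t).re) (flipIf (fun _ => true) b s) ^ 2 +
        load m (fun t => (ψ t).im) (flipIf (fun _ => true) b s) ^ 2 := by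
    intro s
    by_cases hs : rd s b = true
    · rw [if_pos hs, key, key]
    · rw [if_neg hs, hz _ s hs, hz _ s hs]
      ring
  rw [Finset.sum_congr rfl fun s _ => h1 s, Finset.sum_add_distrib,
    sum_flipIf (fun _ => true) b (fun s => load m (fun t => (ψ t).re) s ^ 2),
    sum_flipIf (fun _ => true) b (fun s => load m (fun t => (ψ t).im) s ^ 2)]
  rw [← hψ, ← norm_cpt m ψ, Fintype.sum_bool]
  rfl

theorem conv (W : ∀ b : ℕ, Set ((Fin b → Bool) → ℂ)) (hW : ∀ b, ∃ ψ ∈ W b, ∑ t, ‖ψ t‖ ^ 2 = 1)
    (r : ℕ) (c s : ℝ) (hc : c ≤ 1) (hs : 0 ≤ s) (O : Oracle) (Y N : Set (List Bool))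
    (h : IsNPP O Y N) : IsQMA W r c s O Y N := by
  classical
  obtain ⟨L, ⟨V, p, hV, hL⟩, hY, hN⟩ := h
  set C : List Bool → List Gate := fun y =>
    if (unpair y).1 = [true] ∧ (unpair (unpair y).2).1.length ≤ p.eval (unpair (unpair y).2).2.length
    then [Sum.inr (false, [], p.eval (unpair (unpair y).2).2.length + 1)] else [] with hC
  have hx2 : NPC.Poly (fun y : List Bool => (unpair (unpair y).2).2) :=
    NPC.Poly.snd (poly_unpair.comp (NPC.Poly.snd poly_unpair))
  have hw2 : NPC.Poly (fun y : List Bool => (unpair (unpair y).2).1) :=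
    NPC.Poly.fst (poly_unpair.comp (NPC.Poly.snd poly_unpair))
  have hp2 : NPC.Poly (fun y : List Bool => p.eval (unpair (unpair y).2).2.length) :=
    UPoly.toPoly (UPoly.eval (UPoly.length hx2) p)
  have pC : NPC.Poly C := by
    have h1 : NPC.Poly (fun y : List Bool => decide ((unpair y).1 = [true]) &&
        decide ((unpair (unpair y).2).1.length ≤ p.eval (unpair (unpair y).2).2.length)) :=
      NPC.Poly.and (NPC.Poly.decide_eq (NPC.Poly.fst poly_unpair) (NPC.Poly.const _))
        (NPC.Poly.decide_le (NPC.Poly.length hw2) hp2)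
    have h2 : NPC.Poly (fun y : List Bool =>
        ([Sum.inr (false, [], p.eval (unpair (unpair y).2).2.length + 1)] : List Gate)) :=
      NPC.Poly.cons (NPC.Poly.inr (NPC.Poly.pair (NPC.Poly.const false)
        (NPC.Poly.pair (NPC.Poly.const []) (NPC.Poly.succ hp2)))) (NPC.Poly.const [])
    refine (NPC.Poly.cond h1 h2 (NPC.Poly.const ([] : List Gate))).congr fun y => ?_
    simp only [hC]
    by_cases ha : (unpair y).1 = [true] <;>
      by_cases hb : (unpair (unpair y).2).1.length ≤ p.eval (unpair (unpair y).2).2.length <;>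
      simp [ha, hb]
  refine ⟨fun z => pairBits (V z) z, C, p + 1, hV.pair (IsFP.of_poly NPC.Poly.id), ?_, ?_, ?_⟩
  · exact polyTime_bits pC
  · intro z
    simp only [hC]
    split_ifs
    · simp [numE]
    · simp [numE]
  · intro x
    have hm : 0 < (p + 1).eval x.length := by
      rw [Polynomial.eval_add, Polynomial.eval_one]
      omega
    have hp1 : p.eval x.length + 1 = (p + 1).eval x.length := by
      rw [Polynomial.eval_add, Polynomial.eval_one]
    have hCv : ∀ w, C (pairBits (V (pairBits w x)) (pairBits w x)) =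
        if V (pairBits w x) = [true] ∧ w.length ≤ p.eval x.length then
          [Sum.inr (false, [], (p + 1).eval x.length)] else [] := by
      intro w
      simp only [hC, unpair_pairBits, hp1]
    refine ⟨fun hxY => ?_, fun hxN w ψ hw hψW hψ => ?_⟩
    · obtain ⟨w, hw, hVw⟩ := (hL x).1 (hY hxY)
      obtain ⟨ψ, hψW, hψ⟩ := hW ((p + 1).eval x.length)
      refine ⟨w, ψ, by omega, hψW, hψ, ?_⟩
      rw [hCv, if_pos ⟨hVw, hw⟩, acc_not hm O ψ hψ]
      exact hc
    · rw [hCv, if_neg, acc_nil hm O ψ]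
      · exact hs
      · rintro ⟨h1, h2⟩
        exact Set.disjoint_left.1 hN ((hL x).2 ⟨w, h2, h1⟩) hxN

end Pool.Agent.W938.QX
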