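import Pool.Agent.H620R2.GaugeQ.Defs
import Pool.Agent.H620R2.Gauge2.Defs
import Pool.Agent.W938.Hyb.Defs

/-!
# Quantum witnesses, and verifiers which ask few questions of even length in superposition

A verifier first makes a classical polynomial-time computation, which depends on the input and on a
classical witness and which may ask polynomially many adaptive questions to the oracle. Then it
runs a quantum circuit of polynomial size on the quantum witness and on ancillas; the circuit may
contain polynomially many oracle gates, but only a bounded number of them ask for strings of even
length.
-/

set_option autoImplicit false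

namespace Pool.Agent.W938.QX

open Pool.Agent.NPC Pool.Agent.H620R2.Gauge Pool.Agent.W938.Hyb

/-- The oracle which agrees with `A` on the strings of even length and with `B` on the strings of
odd length. -/
def mix (A B : Oracle) : Oracle := fun z => if z.length % 2 = 0 then A z else B z

/-- The number of those oracle gates of a circuit which ask for strings of even length. -/
def numE : List Gate → ℕ
  | [] => 0
  | Sum.inr (true, q, _) :: l => numE l + (if q.length % 2 = 0 then 1 else 0)
  | _ :: l => numE l

/-- The probability that the circuit with the gates `l` accepts, relative to the oracle `O`, the
witness state `ψ` (a state of `b` qubits, with complex amplitudes). After the `b` qubits of the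
witness there are `m` ancillas, which are `0` in the beginning. The circuit accepts if the
measurement of the first ancilla (the qubit number `b`) of the final state gives `1`. The gates are
real matrices, hence they act on the real part and on the imaginary part of the state
separately. -/
noncomputable def accW (O : Oracle) (l : List Gate) {b : ℕ} (m : ℕ) (ψ : (Fin b → Bool) → ℂ) : ℝ :=
  ∑ s : Fin (b + m) → Bool, if rd s b then
    circAct O l (load m fun t => (ψ t).re) s ^ 2 + circAct O l (load m fun t => (ψ t).im) s ^ 2
  else 0

/-- The promise problem `(Y, N)` (the strings in `Y` are to be accepted and the strings in `N` are to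
be rejected) has quantum proofs relative to `O`, with completeness `c` and soundness `s`, with
witness states from the family `W` (`W b` is the set of the witness states of `b` qubits that a
prover may send; for `QMA` these are all states, for `QCMA` the basis states, for `QMA(k)` the
products of `k` states), and with a verifier which asks at most `r` questions of even length in
superposition. The verifier computes in polynomial time relative to `O`, from the input `x` and a
classical witness `w`, the string `F ⟨w, x⟩` and then, in polynomial time, a quantum circuit with at
most `r` oracle gates for strings of even length (and any number of other gates). The circuit is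
applied to the quantum witness `ψ`, a state of `p(|x|)` qubits, and to `p(|x|)` ancillas. -/
def IsQMA (W : ∀ b : ℕ, Set ((Fin b → Bool) → ℂ)) (r : ℕ) (c s : ℝ) (O : Oracle)
    (Y N : Set (List Bool)) : Prop :=
  ∃ (F : List Bool → List Bool) (C : List Bool → List Gate) (p : Polynomial ℕ),
    IsFP O F ∧ PolyTime (fun z => bits (C z)) ∧ (∀ z, numE (C z) ≤ r) ∧
    ∀ x : List Bool,
      (x ∈ Y → ∃ (w : List Bool) (ψ : (Fin (p.eval x.length) → Bool) → ℂ),
        w.length ≤ p.eval x.length ∧ ψ ∈ W (p.eval x.length) ∧ ∑ t, ‖ψ t‖ ^ 2 = 1 ∧
        c ≤ accW O (C (F (pairBits w x))) (p.eval x.length) ψ) ∧
      (x ∈ N → ∀ (w : List Bool) (ψ : (Fin (p.eval x.length) → Bool) → ℂ),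
        w.length ≤ p.eval x.length → ψ ∈ W (p.eval x.length) → ∑ t, ‖ψ t‖ ^ 2 = 1 →
        accW O (C (F (pairBits w x))) (p.eval x.length) ψ ≤ s)

/-- The promise problem `(Y, N)` is in `NP` relative to `O`: some language in `NP` relative to `O`
contains all strings of `Y` and no string of `N`. -/
def IsNPP (O : Oracle) (Y N : Set (List Bool)) : Prop :=
  ∃ L : Set (List Bool), IsNP O L ∧ Y ⊆ L ∧ Disjoint L N

end Pool.Agent.W938.QX
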