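import Pool.Agent.W938.QM.Hybrid
import Pool.Agent.W938.QX.Defs

/-!
# The weights of the questions of even length, and the distance of the runs for two oracles
-/

set_option autoImplicit false
set_option linter.unusedSectionVars false

namespace Pool.Agent.W938.QX

open Finset Pool.Agent.H620R2.Gauge Pool.Agent.W938.Hyb Pool.Agent.W938.QM

variable {m : ℕ}

lemma gw_odd {q : List ℕ} (hq : ¬ q.length % 2 = 0) (k : ℕ) (ψ : (Fin m → Bool) → ℝ)
    {z : List Bool} (hz : z.length % 2 = 0) : gw (Sum.inr (true, q, k)) ψ z = 0 := by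
  simp only [gw]
  split_ifs with h
  · refine Finset.sum_eq_zero fun s _ => ?_
    rw [if_neg]
    intro he
    apply hq
    rw [← hz, ← he]
    unfold qn
    rw [dif_pos h, List.length_map]
  · rfl

lemma sum_wq_even (O : Oracle) (T : Finset (List Bool)) (hT : ∀ z ∈ T, z.length % 2 = 0) :
    ∀ (l : List Gate) (ψ : (Fin m → Bool) → ℝ), ∑ z ∈ T, wq O l ψ z ≤ numE l * ∑ s, ψ s ^ 2
  | [], ψ => by simp [wq, numE]
  | g :: l, ψ => by
    have ih := sum_wq_even O T hT l (gateAct O g ψ)
    rw [gateAct_norm] at ih
    simp only [wq]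
    rw [Finset.sum_add_distrib]
    rcases g with i | ⟨b, q, k⟩
    · simpa [gw, numE] using ih
    · cases b with
      | false => simpa [gw, numE] using ih
      | true =>
        by_cases hq : q.length % 2 = 0
        · have h1 := sum_gw_le (Sum.inr (true, q, k)) ψ T
          simp only [numE, if_pos hq]
          push_cast
          linarith
        · have h1 : ∑ z ∈ T, gw (Sum.inr (true, q, k)) ψ z = 0 :=
            Finset.sum_eq_zero fun z hz => gw_odd hq k ψ (hT z hz)
          simp only [numE, if_neg hq, h1, zero_add, add_zero]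
          exact ih

lemma gate_odd {O O' : Oracle} (ho : ∀ z : List Bool, ¬ z.length % 2 = 0 → O z = O' z)
    {q : List ℕ} (hq : ¬ q.length % 2 = 0) (k : ℕ) (ψ : (Fin m → Bool) → ℝ) :
    gateAct O (Sum.inr (true, q, k)) ψ = gateAct O' (Sum.inr (true, q, k)) ψ := by
  funext s
  simp only [gateAct]
  have e : (fun s : Fin m → Bool => O (q.map (rd s))) = fun s => O' (q.map (rd s)) := by
    funext s
    exact ho _ (by rwa [List.length_map])
  rw [e]

/-- The distance of the final states, for oracles which agree on the strings of odd length. -/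
lemma circ_diff (A A' : Oracle) (T : Finset (List Bool))
    (ho : ∀ z : List Bool, ¬ z.length % 2 = 0 → A z = A' z) : ∀ (l : List Gate)
    (_ : Cov m A A' T l) (ψ : (Fin m → Bool) → ℝ),
    ∑ s, (circAct A l ψ s - circAct A' l ψ s) ^ 2 ≤ numE l * (4 * ∑ z ∈ T, wq A l ψ z)
  | [], _, ψ => by simp [circAct, numE]
  | g :: l, hT, ψ => by
    have ih := circ_diff A A' T ho l (fun q k hq => hT q k (List.mem_cons_of_mem _ hq))
      (gateAct A g ψ)
    simp only [circAct, wq]
    rw [Finset.sum_add_distrib]
    have hsame : (gateAct A g ψ = gateAct A' g ψ) → numE (g :: l) = numE l →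
        ∑ s, (circAct A l (gateAct A g ψ) s - circAct A' l (gateAct A' g ψ) s) ^ 2 ≤
          (numE (g :: l) : ℝ) * (4 * (∑ z ∈ T, gw g ψ z + ∑ z ∈ T, wq A l (gateAct A g ψ) z)) := by
      intro h1 h2
      rw [← h1, h2]
      refine ih.trans ?_
      have h3 : 0 ≤ ∑ z ∈ T, gw g ψ z := Finset.sum_nonneg fun z _ => gw_nonneg g ψ z
      have h4 : (0 : ℝ) ≤ numE l := Nat.cast_nonneg _
      refine mul_le_mul_of_nonneg_left ?_ h4
      linarith
    rcases g with i | ⟨b, q, k⟩
    · exact hsame rfl rfl
    · cases b with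
      | false => exact hsame rfl rfl
      | true =>
        by_cases hq : q.length % 2 = 0
        · have hg := gate_diff A A' T q k ψ (fun s hk hs => hT q k List.mem_cons_self s hk hs)
          have hb : ∑ s, (circAct A' l (gateAct A (Sum.inr (true, q, k)) ψ) s -
              circAct A' l (gateAct A' (Sum.inr (true, q, k)) ψ) s) ^ 2 ≤
              4 * ∑ z ∈ T, gw (Sum.inr (true, q, k)) ψ z := by
            have e : (fun s => circAct A' l (gateAct A (Sum.inr (true, q, k)) ψ) s -
                circAct A' l (gateAct A' (Sum.inr (true, q, k)) ψ) s) = circAct A' l (fun s =>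
                gateAct A (Sum.inr (true, q, k)) ψ s - gateAct A' (Sum.inr (true, q, k)) ψ s) := by
              rw [circAct_sub]
            have e2 := circ_norm A' l (fun s =>
                gateAct A (Sum.inr (true, q, k)) ψ s - gateAct A' (Sum.inr (true, q, k)) ψ s)
            rw [← e] at e2
            rw [e2]
            exact hg
          set W1 := ∑ z ∈ T, gw (Sum.inr (true, q, k)) ψ z with hW1
          set W2 := ∑ z ∈ T, wq A l (gateAct A (Sum.inr (true, q, k)) ψ) z with hW2
          have hW1n : 0 ≤ W1 := Finset.sum_nonneg fun z _ => gw_nonneg _ ψ z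
          have hW2n : 0 ≤ W2 := Finset.sum_nonneg fun z _ => wq_nonneg A l _ z
          have hnum : numE (Sum.inr (true, q, k) :: l) = numE l + 1 := by
            simp only [numE, if_pos hq]
          rw [hnum]
          set c : ℝ := (numE l : ℝ) with hc
          have hc0 : 0 ≤ c := Nat.cast_nonneg _
          push_cast
          rw [← hc]
          set a : (Fin m → Bool) → ℝ := fun s =>
            circAct A l (gateAct A (Sum.inr (true, q, k)) ψ) s -
              circAct A' l (gateAct A (Sum.inr (true, q, k)) ψ) s with ha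
          set d : (Fin m → Bool) → ℝ := fun s =>
            circAct A' l (gateAct A (Sum.inr (true, q, k)) ψ) s -
              circAct A' l (gateAct A' (Sum.inr (true, q, k)) ψ) s with hd
          have hsum : ∀ s, circAct A l (gateAct A (Sum.inr (true, q, k)) ψ) s -
              circAct A' l (gateAct A' (Sum.inr (true, q, k)) ψ) s = a s + d s := by
            intro s
            simp only [ha, hd]
            ring
          simp only [hsum]
          change ∑ s, a s ^ 2 ≤ c * (4 * W2) at ih
          change ∑ s, d s ^ 2 ≤ 4 * W1 at hb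
          rcases hc0.eq_or_lt with h0 | hpos
          · rw [← h0, zero_mul] at ih
            have ha0 : ∀ s, a s = 0 := by
              intro s
              have h1 := Finset.single_le_sum (f := fun s => a s ^ 2) (fun s _ => sq_nonneg _)
                (Finset.mem_univ s)
              have h2 : a s ^ 2 ≤ 0 := h1.trans ih
              exact pow_eq_zero_iff (two_ne_zero) |>.1 (le_antisymm h2 (sq_nonneg _))
            simp only [ha0, zero_add]
            rw [← h0]
            linarith
          · have h1 : ∀ s, (a s + d s) ^ 2 ≤ (c + 1) / c * a s ^ 2 + (c + 1) * d s ^ 2 := by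
              intro s
              have h2 : (c + 1) / c * a s ^ 2 + (c + 1) * d s ^ 2 - (a s + d s) ^ 2 =
                  (a s - c * d s) ^ 2 / c := by
                field_simp
                ring
              have h3 : 0 ≤ (a s - c * d s) ^ 2 / c := by positivity
              linarith
            calc ∑ s, (a s + d s) ^ 2 ≤ ∑ s, ((c + 1) / c * a s ^ 2 + (c + 1) * d s ^ 2) :=
                  Finset.sum_le_sum fun s _ => h1 s
              _ = (c + 1) / c * ∑ s, a s ^ 2 + (c + 1) * ∑ s, d s ^ 2 := by
                  rw [Finset.sum_add_distrib, Finset.mul_sum, Finset.mul_sum]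
              _ ≤ (c + 1) / c * (c * (4 * W2)) + (c + 1) * (4 * W1) := by gcongr
              _ = (c + 1) * (4 * (W1 + W2)) := by
                  field_simp
                  ring
        · refine hsame (gate_odd ho hq k ψ) ?_
          simp only [numE, if_neg hq, add_zero]

/-- The probability that the measurement of the qubit `a` gives `1`, when the circuit starts in the
state `ψ`. -/
noncomputable def accQ (a : ℕ) (A : Oracle) (l : List Gate) (ψ : (Fin m → Bool) → ℝ) : ℝ :=
  ∑ s, if rd s a then circAct A l ψ s ^ 2 else 0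

/-- If a circuit accepts with probability at least `c` for the oracle `A` and at most `d` for the
oracle `A'`, where `c - d` is at least `1/k`, then it asks the strings on which the two oracles
differ with a large weight. -/
lemma weight_far {ι : Type} [Fintype ι] (A A' : Oracle) (T : Finset (List Bool))
    (ho : ∀ z : List Bool, ¬ z.length % 2 = 0 → A z = A' z) (l : List Gate)
    (hT : Cov m A A' T l) (a : ℕ) (ψ : ι → (Fin m → Bool) → ℝ) (hψ : ∑ j, ∑ s, ψ j s ^ 2 = 1)
    (c d k : ℝ) (hk : 0 < k) (hcd : 1 / k ≤ c - d)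
    (h1 : c ≤ ∑ j, accQ a A l (ψ j)) (h2 : ∑ j, accQ a A' l (ψ j) ≤ d) (R : ℝ)
    (hR0 : 0 < R) (hR : (numE l : ℝ) ≤ R) :
    1 / (16 * k ^ 2 * R) ≤ ∑ z ∈ T, ∑ j, wq A l (ψ j) z := by
  have h4 : ∑ j, accQ a A l (ψ j) - ∑ j, accQ a A' l (ψ j) ≤
      ∑ j, ∑ s, (2 * k * (circAct A l (ψ j) s - circAct A' l (ψ j) s) ^ 2 +
        (circAct A l (ψ j) s ^ 2 + circAct A' l (ψ j) s ^ 2) / (4 * k)) := by
    rw [← Finset.sum_sub_distrib]
    refine Finset.sum_le_sum fun j _ => ?_
    unfold accQ
    rw [← Finset.sum_sub_distrib]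
    refine Finset.sum_le_sum fun s _ => ?_
    set u := circAct A l (ψ j) s
    set v := circAct A' l (ψ j) s
    have h5 : u ^ 2 - v ^ 2 ≤ 2 * k * (u - v) ^ 2 + (u ^ 2 + v ^ 2) / (4 * k) := by
      have e : 2 * k * (u - v) ^ 2 + (u ^ 2 + v ^ 2) / (4 * k) - (u ^ 2 - v ^ 2) =
          ((4 * k * (u - v) - (u + v)) ^ 2 + (u - v) ^ 2) / (8 * k) := by
        field_simp
        ring
      have h6 : 0 ≤ ((4 * k * (u - v) - (u + v)) ^ 2 + (u - v) ^ 2) / (8 * k) := by positivity
      linarith
    have h6 : 0 ≤ 2 * k * (u - v) ^ 2 + (u ^ 2 + v ^ 2) / (4 * k) := by positivity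
    split_ifs
    · exact h5
    · linarith
  have h5 : ∀ j, ∑ s, (2 * k * (circAct A l (ψ j) s - circAct A' l (ψ j) s) ^ 2 +
        (circAct A l (ψ j) s ^ 2 + circAct A' l (ψ j) s ^ 2) / (4 * k)) ≤
      8 * k * R * ∑ z ∈ T, wq A l (ψ j) z + (∑ s, ψ j s ^ 2) / (2 * k) := by
    intro j
    have h3 := circ_diff A A' T ho l hT (ψ j)
    rw [Finset.sum_add_distrib, ← Finset.mul_sum, ← Finset.sum_div, Finset.sum_add_distrib,
      circ_norm, circ_norm]
    set W := ∑ z ∈ T, wq A l (ψ j) z with hW
    have hW0 : 0 ≤ W := Finset.sum_nonneg fun z _ => wq_nonneg A l (ψ j) z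
    have h7 : (numE l : ℝ) * (4 * W) ≤ R * (4 * W) := mul_le_mul_of_nonneg_right hR (by positivity)
    have h8 : 2 * k * ∑ s, (circAct A l (ψ j) s - circAct A' l (ψ j) s) ^ 2 ≤
        2 * k * (R * (4 * W)) := mul_le_mul_of_nonneg_left (h3.trans h7) (by positivity)
    have h9 : (∑ s, ψ j s ^ 2 + ∑ s, ψ j s ^ 2) / (4 * k) = (∑ s, ψ j s ^ 2) / (2 * k) := by
      field_simp
      ring
    rw [h9]
    linarith
  have h6 := h4.trans (Finset.sum_le_sum fun j _ => h5 j)
  rw [Finset.sum_add_distrib, ← Finset.mul_sum, ← Finset.sum_div, hψ] at h6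
  rw [Finset.sum_comm]
  set X := ∑ j, ∑ z ∈ T, wq A l (ψ j) z with hX
  have h7 : 1 / k ≤ 8 * k * R * X + 1 / (2 * k) := by linarith
  have h8 : 1 / k - 1 / (2 * k) = 1 / (2 * k) := by
    field_simp
    ring
  have h9 : 1 / (2 * k) ≤ 8 * k * R * X := by linarith
  have h10 : 1 / (16 * k ^ 2 * R) = 1 / (2 * k) / (8 * k * R) := by
    field_simp
    ring
  rw [h10, div_le_iff₀ (by positivity)]
  linarith

end Pool.Agent.W938.QX
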